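import Pool.Agent.Lib.helper11.QWheel

namespace Pool.Agent.Results.MP_630a53_an.Bipartite

open Pool.Agent.Lib.helper11.QGraph Set Real

/-- the equilateral complete bipartite graph `K_{3,3}` with standard conditions. -/
def K33 : QG (Fin 3 ⊕ Fin 3) (Fin 3 × Fin 3) :=
  ⟨fun e => .inl e.1, fun e => .inr e.2, fun _ => 1, fun _ => 0⟩

lemma len (e : Fin 3 × Fin 3) : 0 ≤ K33.len e := zero_le_one

lemma hot (e : Fin 3 × Fin 3) (x : ℝ) (hx : x ∈ Icc (0 : ℝ) 1) : K33.Hot ((π / 2) ^ 2) e x := by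
  obtain ⟨a, ha⟩ : ∃ a, a = cos (π / 2 * x) := ⟨_, rfl⟩
  obtain ⟨b, hb⟩ : ∃ b, b = sin (π / 2 * x) := ⟨_, rfl⟩
  have hab : a ^ 2 + b ^ 2 = 1 := by rw [ha, hb]; exact cos_sq_add_sin_sq _
  have e1 : ∀ t u : ℝ, π / 2 * t * (u / (π / 2)) = t * u := fun t u => by field_simp
  obtain ⟨F, hF⟩ : ∃ F : Fin 3 ⊕ Fin 3 → ℝ, F = Sum.elim (fun i => if i = e.1 then a else -a / 2)
    fun j => if j = e.2 then b else -b / 2 := ⟨_, rfl⟩
  have top : F (K33.src e) * cos (π / 2 * x) +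
      π / 2 * F (K33.tgt e) * (sin (π / 2 * x) / (π / 2)) = 1 := by
    rw [e1, ← ha, ← hb, hF]; simp [K33]; linarith
  refine ⟨fun e y => F (K33.src e) * cos (π / 2 * y) +
    π / 2 * F (K33.tgt e) * (sin (π / 2 * y) / (π / 2)),
    (eig_iff K33 len fund_half _).2 ⟨F, _, fun _ _ _ => rfl, fun e => ?_,
      fun v => ?_, e, x, hx, by simp only [top]; norm_num⟩, Or.inl fun e' y _ => ?_⟩
  · simp [K33]; field_simp
  · obtain ⟨i, j⟩ := e
    rcases v with v | v <;> fin_cases i <;> fin_cases j <;> fin_cases v <;>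
      simp [K33, hF, Finset.sum_filter, Fintype.sum_prod_type, Fin.sum_univ_succ] <;> ring
  · have h := cos_sq_add_sin_sq (π / 2 * y)
    simp only [top]
    simp only [e1, hF, K33, Sum.elim_inl, Sum.elim_inr]
    generalize cos (π / 2 * y) = c at h
    generalize sin (π / 2 * y) = s at h
    split_ifs <;>
      nlinarith [sq_nonneg (a - c), sq_nonneg (a / 2 + c), sq_nonneg (b - s), sq_nonneg (b / 2 + s),
        sq_nonneg a, sq_nonneg b]

theorem result : K33.Good ∧ K33.IsSecond ((π / 2) ^ 2) ∧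
    ∀ e, ∀ x ∈ Icc 0 (K33.len e), K33.Hot ((π / 2) ^ 2) e x := by
  refine ⟨⟨fun _ => one_pos, fun u v => ?_⟩, ⟨(hot 0 0 (by simp)).imp fun f h => h.1, 0,
    subset_antisymm ?_ ?_⟩, hot⟩
  · have h : ∀ u, K33.Joined ∅ u (.inr 0) := by
      rintro (u | u)
      · exact .rel _ _ ⟨(u, 0), by simp, rfl, rfl⟩
      · exact .trans _ (.inl 0) _ (.symm _ _ (.rel _ _ ⟨(0, u), by simp, rfl, rfl⟩))
          (.rel _ _ ⟨(0, 0), by simp, rfl, rfl⟩)
    exact .trans _ _ _ (h u) (.symm _ _ (h v))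
  · rintro μ ⟨⟨f, hf⟩, hμ⟩
    by_contra h0
    obtain ⟨C, S, h, p1, p2, -, -, -, h3, -⟩ := fund_low hμ
    obtain ⟨F, d, e0, e1, e2, e, x, hx, hne⟩ := (eig_iff K33 len h f).1 hf
    have w := h.w 1
    have a : ∀ i j, F (.inr j) = F (.inl i) * C 1 + d (i, j) * S 1 := fun i j => e1 (i, j)
    have cl : ∀ i, F (.inr 0) + F (.inr 1) + F (.inr 2) = 3 * C 1 * F (.inl i) := fun i => by
      have b := e2 (.inl i)
      have b' : d (i, 0) + d (i, 1) + d (i, 2) = 0 := by
        fin_cases i <;>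
          simpa [K33, Finset.sum_filter, Fintype.sum_prod_type, Fin.sum_univ_succ, add_assoc] using b
      linear_combination a i 0 + a i 1 + a i 2 + S 1 * b'
    have cr : ∀ j, F (.inl 0) + F (.inl 1) + F (.inl 2) = 3 * C 1 * F (.inr j) := fun j => by
      have b := e2 (.inr j)
      have b' : (d (0, j) + d (1, j) + d (2, j)) * C 1 =
          μ * (F (.inl 0) + F (.inl 1) + F (.inl 2)) * S 1 := by
        fin_cases j <;>
          simp [K33, Finset.sum_filter, Fintype.sum_prod_type, Fin.sum_univ_succ] at b ⊢ <;>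
          linarith
      linear_combination -C 1 * (a 0 j + a 1 j + a 2 j) - S 1 * b' -
        (F (.inl 0) + F (.inl 1) + F (.inl 2)) * w
    have z : (1 - C 1) * (1 + C 1) * (F (.inr 0) + F (.inr 1) + F (.inr 2)) = 0 := by
      linear_combination (cl 0 + cl 1 + cl 2) / 3 + C 1 * (cr 0 + cr 1 + cr 2) / 3
    have z1 := (mul_eq_zero.1 z).resolve_left
      (mul_ne_zero (sub_ne_zero.2 (h3 h0).symm) (by positivity))
    have zl : ∀ i, F (.inl i) = 0 := fun i =>
      (mul_eq_zero.1 ((cl i).symm.trans z1)).resolve_left (by positivity)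
    have zr : ∀ j, F (.inr j) = 0 := fun j =>
      (mul_eq_zero.1 ((cr j).symm.trans (by simp [zl]))).resolve_left (by positivity)
    have zd : d e = 0 := by simpa [zl, zr, p2.ne'] using a e.1 e.2
    exact hne (by rw [e0 e x hx, zd]; simp [K33, zl])
  · rintro _ rfl
    refine ⟨⟨fun _ _ => 1, (eig_iff K33 len fund_zero _).2
      ⟨fun _ => 1, fun _ => 0, by simp, by simp, by simp [K33], 0, 0, by simp [K33], by simp⟩⟩, ?_⟩
    exact (by positivity : (0 : ℝ) < (π / 2) ^ 2)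

end Pool.Agent.Results.MP_630a53_an.Bipartite
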